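import Pool.Agent.H860.RS.Main

/-!
# Redshift for algebras over connective Morava E-theory fails for dual numbers

The question asks whether for every prime `p`, every `n ≥ 1`, every connected semi-finite commutative
`e_n`-algebra `B` with a map to a Galois extension `M` of `E_n[1/p]`, and every `v_{n+1}` self map `v` of
a finite `p`-local spectrum `F`,

1. `v` acts bijectively on `F_* K(B)` in all sufficiently high degrees;
2. `K(B) → L^f_{n+1} K(B)` is a `p`-adic equivalence in sufficiently high degrees.

**Theorem.** Let `p` be any prime number, `n ≥ 1`, and let `B` be any connective algebra of the question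
(for instance `B = e_n`). The dual numbers `B[x]/(x^2) = B ∧ S[Π]`, where `Π = {0, 1, x}` is the pointed
monoid with `x^2 = 0`, are again an algebra of the question, and

* statement (1) fails for `B[x]/(x^2)`, for **every** finite `F ≠ 0` and every `v_{n+1}` self map of `F`;
* statement (2) fails for `B[x]/(x^2)`;
* for every finite spectrum `F ≠ 0` which is annihilated by a power of `p`, the group
  `F_k K(B[x]/(x^2))` is nonzero in infinitely many degrees `k > 0`.

So, as it is worded, the answer to the question is negative, for every `p` and every `n ≥ 1`: the
algebras of the question need not be regular, and each of them has a nilpotent thickening for which both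
statements fail.

**Proof.** By Dundas, Goodwillie and McCarthy the relative K-theory of `B[x]/(x^2)` is its relative
topological cyclic homology. This splits, after `p`-completion, into factors `A_m` for the `m ≥ 1` which
are prime to `p`, where `A_m` comes from the weights `m`, `m p`, `m p^2`, ... of the cyclic bar
construction of `Π` (Hesselholt and Madsen; Nikolaus and Scholze; Speirs). For odd `m` the weight `m`
contributes `Σ^m THH(B)_p` and the other weights contribute a spectrum whose homotopy groups vanish
below `2 m`. So `A_m` has the bottom homotopy group `π_m A_m = π_0 B`. This is a nonzero finitely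
generated module over the local ring `π_0 e_n = W[[u_1, ..., u_{n-1}]]`, so it is not `p`-divisible. If
`F ≠ 0` is finite and killed by a power of `p`, with the bottom homotopy group `π_b F`, then the group
`F_{b+m} A_m = π_b F ⊗ π_m A_m` is nonzero, and it is a direct summand of `F_{b+m} K(B[x]/(x^2))`.

If `v` acts bijectively on `F_* K` in high degrees then the cofibre `C` of `v`, a finite torsion
spectrum, has `C_* K = 0` in high degrees; and `C ≠ 0` since `K(m)_* v` is nilpotent and
`K(m)_* F ≠ 0` for large `m`. For (2) one uses a finite `F ≠ 0` of type at least `n + 2`, for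
which `F_* L^f_{n+1} X = 0` for all `X`.

**Setting.** `Theory p n` lists the objects: the stable homotopy category with its triangulated
structure, smash product and homotopy groups, finite `p`-local spectra, Morava K-theories, `L^f_{n+1}`,
`p`-completion, the homotopy category of the commutative `e_n`-algebras with `π_0`, K-theory, THH and
dual numbers. `Theory.IsKnown` lists the published facts which are used. Everything else is proved.
-/

set_option autoImplicit false

universe u v w u' v'

namespace Pool.Agent.Results.MP_d175a7_gt.DualNumbers

open CategoryTheory Limits Pool.Agent.H860.RS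

/-- The question has a negative answer, for every `p` and `n ≥ 1`; and both statements fail for the dual
numbers over every connective algebra of the question. -/
theorem result (p n : ℕ) [Fact p.Prime] (_hn : 1 ≤ n) (T : Theory.{u, v, w, u', v'} p n)
    (hT : T.IsKnown) :
    ¬ T.Question ∧
    (T.Admissible T.e ∧ T.Below 0 (T.und.obj T.e)) ∧
    (∃ (F : T.Sp) (d : ℤ) (v : F⟦d⟧ ⟶ F), T.SelfMap v ∧ ¬ IsZero F) ∧
    ∀ B : T.Alg, T.Admissible B → T.Below 0 (T.und.obj B) →
      T.Admissible (T.D.obj B) ∧
      (∀ (F : T.Sp) (d : ℤ) (v : F⟦d⟧ ⟶ F), T.SelfMap v → ¬ IsZero F → ¬ T.One (T.D.obj B) v) ∧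
      ¬ T.Two (T.D.obj B) ∧
      ∀ F : T.Sp, T.fin F → ¬ IsZero F → T.Tors F →
        ∀ N : ℤ, ∃ k : ℤ, N ≤ k ∧ Nontrivial (T.hom F k (T.K.obj (T.D.obj B))) := by
  have he := Theory.admissible_e hT
  obtain ⟨F, v, hv, h0⟩ := Theory.exists_selfMap hT
  refine ⟨fun hq => ?_, ⟨he, hT.e_below⟩, ⟨F, 0, v, hv, h0⟩, fun B hB hb =>
    ⟨Theory.admissible_D hT B hB, fun F d v hv h0 => Theory.not_one hT B hB hb v hv h0,
      Theory.not_two hT B hB hb, fun F hF h0 ht N => Theory.unbounded hT B hB hb F hF h0 ht N⟩⟩
  exact Theory.not_one hT T.e he hT.e_below v hv h0
    (hq (T.D.obj T.e) (Theory.admissible_D hT T.e he) F 0 v hv).1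

end Pool.Agent.Results.MP_d175a7_gt.DualNumbers
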