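import Pool.Agent.H860.RS.Orders

/-!
# Redshift for algebras over connective Morava E-theory fails for orders in Galois extensions

The question asks whether for all `p`, `n ≥ 1`, all connected semi-finite commutative `e_n`-algebras `B`
with a map to a Galois extension `M` of `E_n[1/p]`, and all `v_{n+1}` self maps `v` of finite `p`-local
spectra `F`,

1. `v` acts bijectively on `F_* K(B)` in all sufficiently high degrees;
2. `K(B) → L^f_{n+1} K(B)` is a `p`-adic equivalence in sufficiently high degrees.

We call `B` an **order** if it is connective, connected and semi-finite, and if `B[1/p, 1/u]` itself is a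
Galois extension of `E_n[1/p]`, for a finite group. The algebra `e_n` is an order, and so is the pullback
`W = e_n ×_{H π_0 e_n} e_n`: since `H π_0 e_n = e_n / u`, the algebra `W[1/p, 1/u]` is the Galois
extension `E_n[1/p] × E_n[1/p]`. The ring `π_* W = {(f, g) : f(0) = g(0)}` is reduced.

**Theorem.** Let `p` be a prime number and `n ≥ 1`.

* Statement (2) does not hold for both `e_n` and `W`.
* For each `v_{n+1}` self map `v` of a finite `F ≠ 0`, statement (1) does not hold for both `e_n`
  and `W`.
* So, even if only orders are admitted as `B`, the answer to the question is negative, for every `p` and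
  every `n ≥ 1`.

If `n = 1`, where (2) is known for `e_1` (Ausoni and Rognes; Hahn and Wilson), this gives the
counterexample `W`. So a condition like the regularity of `B` is necessary, and the problem is not one
of nilpotent elements.

**Proof.** Let `e_n ⊙ e_n` be the ring of Land and Tamme for the pullback `W`, with the underlying
spectrum `e_n ⊗_W e_n`. Its homotopy is polynomial over `π_0 e_n` on one generator `t` of degree `6`
(the ring `π_* W` is `R[u, u'] / (u u')`). If the statements hold for `e_n` and `W` then, by the
Mayer-Vietoris sequence of Land and Tamme and the Lichtenbaum-Quillen conjecture for the regular ring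
`π_0 e_n`, they hold for the fibre `KT` of `K(e_n ⊙ e_n) → K(π_0 e_n)`. But `u` is zero in
`e_n ⊙ e_n`, so that by the purity theorem of Land, Mathew, Meier and Tamme `KT` is `T(i)`-acyclic for all
`i ≥ 1`. So the homotopy groups of its `p`-completion vanish in high degrees. But by Goodwillie's theorem
they are rationally nonzero in the degrees `6 m + 1`, because of the powers `t^m`.

**Setting.** As in the hand-in `DualNumbers`: `Theory p n` lists the objects of the question,
`Theory.Orders` the additional objects, and `Theory.IsKnown` and `Orders.IsKnown` list the facts which are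
used. The Mayer-Vietoris arguments, the argument with the cofibre of `v` and the type of this cofibre,
and the treatment of the localization are proved.
-/

set_option autoImplicit false

universe u v w u' v'

namespace Pool.Agent.Results.MP_d175a7_gt.Orders

open CategoryTheory Limits Pool.Agent.H860.RS

/-- Both statements of the question fail for `e_n` or for the order `W = e_n ×_{H π_0 e_n} e_n`; the
question for orders has a negative answer. -/
theorem result (p n : ℕ) [Fact p.Prime] (_hn : 1 ≤ n) (T : Theory.{u, v, w, u', v'} p n)
    (hT : T.IsKnown) (O : T.Orders) (hO : O.IsKnown) :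
    (O.IsOrder T.e ∧ O.IsOrder O.W) ∧
    ¬ (T.Two T.e ∧ T.Two O.W) ∧
    (∀ (F : T.Sp) (d : ℤ) (v : F⟦d⟧ ⟶ F), T.SelfMap v → ¬ IsZero F →
      ¬ (T.One T.e v ∧ T.One O.W v)) ∧
    ¬ O.OrderQuestion := by
  have h1 := Theory.order_e hT O hO
  have h2 := Theory.order_W hT O hO
  obtain ⟨F, v, hv, h0⟩ := Theory.exists_selfMap hT
  refine ⟨⟨h1, h2⟩, Theory.not_both hT O hO, fun F d v hv h0 =>
    Theory.not_both_one hT O hO v hv h0, fun hq => Theory.not_both hT O hO
      ⟨(hq T.e h1 F 0 v hv).2, (hq O.W h2 F 0 v hv).2⟩⟩

end Pool.Agent.Results.MP_d175a7_gt.Orders
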